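import Pool.Agent.Helper61.HT.AllG
import Pool.Agent.Helper61.HT.StG

/-!
# MP_2bbb47_an: property (T) subalgebras of ultrapowers of II_1 factors with the Haagerup property

Let `N` be a II_1 factor with the Haagerup property, `U` a non-principal ultrafilter on `ℕ` and `B`
a von Neumann subalgebra of the tracial ultrapower of `N` with property (T).  Then there are finite
dimensional *-subalgebras `M n` of `N` such that `B` is contained in the ultraproduct of the `M n`.
-/

namespace Pool.Agent.Results.MP_2bbb47_an.PetersonQuestion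

open Helper61.HT

theorem result {N : Type} [CStarAlgebra N] [PartialOrder N] [StarOrderedRing N]
    (τ : N →ₗ[ℂ] ℂ) (hN : II1 τ) (hH : Haag τ)
    (U : Ultrafilter ℕ) (hU : (U : Filter ℕ) ≤ Filter.atTop)
    {B : Type} [CStarAlgebra B] [PartialOrder B] [StarOrderedRing B]
    (τB : B →ₗ[ℂ] ℂ) (hB : Trc τB) (hB' : Cpl τB)
    (hT : PropTcp τB ∨ PropTb τB ∨ II1 τB ∧ PropTcj τB)
    (θ : ℕ → B → N) (hθ : Emb U τB τ θ) :
    ∃ M : ℕ → StarSubalgebra ℂ N, (∀ n, FiniteDimensional ℂ (M n)) ∧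
      ∀ b : B, ∃ y : ℕ → N, (∀ n, y n ∈ M n) ∧ (∃ C : ℝ, ∀ n, ‖y n‖ ≤ C) ∧
        Filter.Tendsto (fun n => hs τ (θ n b - y n)) U (nhds 0) :=
  aFin N τ B τB U θ hU hN hH hB hB' hθ
    (hT.elim (aUnifA B τB hB hB') fun h =>
      h.elim (fun h => aUnifB B τB hB hB' h.bim) fun h => gUnif τB h.1 h.2)

end Pool.Agent.Results.MP_2bbb47_an.PetersonQuestion
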